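import Pool.Agent.WittPrimes.Theta

set_option autoImplicit false

/-!
A generic relation over `k[X]` gives `1 ∈ M`.
-/

namespace PRI65

open Pool.WittPrimes Polynomial

attribute [local instance 100] LieRing.ofAssociativeRing

section gen

variable {k U : Type*} [Field k] [Ring U] [Algebra k U]

/-- polynomials over `k` as central Laurent series -/
noncomputable def AA (k U : Type*) [Field k] [Ring U] [Algebra k U] (p : k[X]) : HahnSeries ℤ U :=
  cmap k U (p.map (algebraMap k U))

theorem AA_monomial (n : ℕ) (r : k) :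
    AA k U (monomial n r) = HahnSeries.single (-(n : ℤ)) (algebraMap k U r) := by
  rw [AA, Polynomial.map_monomial, cmap_monomial]

theorem sm_single (n : ℤ) (r : k) (a : U) :
    r • (HahnSeries.single n a : HahnSeries ℤ U) = HahnSeries.single n (r • a) := by
  ext m
  rw [HahnSeries.coeff_smul, HahnSeries.coeff_single, HahnSeries.coeff_single]
  split_ifs
  · rfl
  · rw [smul_zero]

theorem AA_add (p q : k[X]) : AA k U (p + q) = AA k U p + AA k U q := by
  rw [AA, Polynomial.map_add, map_add]; rfl

theorem AA_comm (p : k[X]) (f : HahnSeries ℤ U) : AA k U p * f = f * AA k U p := by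
  induction p using Polynomial.induction_on' with
  | add p q hp hq => rw [AA_add, add_mul, mul_add, hp, hq]
  | monomial n r =>
    have h : (HahnSeries.single (-(n : ℤ)) (algebraMap k U r) : HahnSeries ℤ U) =
        r • HahnSeries.single (-(n : ℤ)) 1 := by
      rw [sm_single, Algebra.algebraMap_eq_smul_one]
    rw [AA_monomial, h, smul_mul_assoc, mul_smul_comm, single_comm]

/-- all coefficients in a left ideal -/
def CI (M : Ideal U) (f : HahnSeries ℤ U) : Prop := ∀ n, f.coeff n ∈ M

theorem CI.mul_left {M : Ideal U} {f : HahnSeries ℤ U} (h : CI M f) (g : HahnSeries ℤ U) :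
    CI M (g * f) := by
  intro n
  rw [HahnSeries.coeff_mul]
  exact Ideal.sum_mem _ fun ij _ => M.mul_mem_left _ (h _)

theorem CI.add {M : Ideal U} {f g : HahnSeries ℤ U} (hf : CI M f) (hg : CI M g) :
    CI M (f + g) := fun n => by
  rw [HahnSeries.coeff_add]; exact M.add_mem (hf n) (hg n)

theorem CI.zero (M : Ideal U) : CI M (0 : HahnSeries ℤ U) := fun n => by
  rw [HahnSeries.coeff_zero]; exact M.zero_mem

theorem CI.sum {M : Ideal U} {ι : Type*} (s : Finset ι) (f : ι → HahnSeries ℤ U)
    (h : ∀ i ∈ s, CI M (f i)) : CI M (∑ i ∈ s, f i) := by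
  classical
  induction s using Finset.induction_on with
  | empty => rw [Finset.sum_empty]; exact CI.zero M
  | insert a s ha ih =>
    rw [Finset.sum_insert ha]
    exact (h a (Finset.mem_insert_self a s)).add
      (ih fun i hi => h i (Finset.mem_insert_of_mem hi))

theorem CI_cmap {M : Ideal U} {p : U[X]} (h : ∀ n, p.coeff n ∈ M) : CI M (cmap k U p) := by
  intro n
  by_cases hn : 0 < n
  · rw [cmap_coeff_pos _ hn]; exact M.zero_mem
  · obtain ⟨j, rfl⟩ : ∃ j : ℕ, n = -(j : ℤ) := ⟨(-n).toNat, by omega⟩
    rw [cmap_coeff]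
    exact h j

theorem one_mem_of_CI_AA {M : Ideal U} {q : k[X]} (hq : q ≠ 0) (h : CI M (AA k U q)) :
    (1 : U) ∈ M := by
  obtain ⟨n, hn⟩ : ∃ n, q.coeff n ≠ 0 := by
    by_contra hcon
    push Not at hcon
    exact hq (Polynomial.ext fun n => by rw [hcon n, coeff_zero])
  have h1 := h (-(n : ℤ))
  rw [AA, cmap_coeff, Polynomial.coeff_map] at h1
  have h2 := M.mul_mem_left (algebraMap k U (q.coeff n)⁻¹) h1
  rwa [← map_mul, inv_mul_cancel₀ hn, map_one] at h2

end gen

variable {k L : Type*} [Field k] [LieRing L] [LieAlgebra k L]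
variable (D : WittData k L) (S : LieSubalgebra k L)
    (hS : S.toSubmodule = Submodule.span k (D.b '' {n | -1 ≤ n}))

theorem theta_contra (Q : TwoSidedIdeal (UniversalEnvelopingAlgebra k S))
    (M : Ideal (UniversalEnvelopingAlgebra k S)) (hQM : ∀ a ∈ Q, a ∈ M) {I ι : Type*} [Fintype ι]
    [DecidableEq I] (κ : ι → I) (s : I → UniversalEnvelopingAlgebra k L)
    (t : ι → UniversalEnvelopingAlgebra k S) (q : k[X]) (hq : q ≠ 0) (x : ι → k[X])
    (h1 : ∀ n, q.coeff n • (1 : UniversalEnvelopingAlgebra k L) -
      ∑ p, (x p).coeff n • (s (κ p) * iotaU S (t p)) ∈ PQ D S hS Q)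
    (h2 : ∀ (a : I) (n : ℕ), (∑ p, if κ p = a then ∑ jl ∈ Finset.HasAntidiagonal.antidiagonal n,
      (x p).coeff jl.1 • (Psi D S hS (t p)).coeff jl.2 else 0) ∈ M) :
    (1 : UniversalEnvelopingAlgebra k S) ∈ M := by
  classical
  -- a common bound of the degrees
  obtain ⟨N, hNq, hNx⟩ : ∃ N, q.natDegree < N ∧ ∀ p, (x p).natDegree < N := by
    refine ⟨q.natDegree + (∑ p, (x p).natDegree) + 1, by omega, fun p => ?_⟩
    have h0 : (x p).natDegree ≤ ∑ p, (x p).natDegree :=
      Finset.single_le_sum (f := fun p => (x p).natDegree) (fun _ _ => Nat.zero_le _)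
        (Finset.mem_univ p)
    omega
  have hsum : ∀ (p : k[X]), p.natDegree < N → ∀ f : HahnSeries ℤ (UniversalEnvelopingAlgebra k S),
      AA k (UniversalEnvelopingAlgebra k S) p * f = ∑ n ∈ Finset.range N,
        HahnSeries.single (-(n : ℤ)) 1 * (p.coeff n • f) := by
    intro p hp f
    have hA : ∀ (T : Finset ℕ), AA k (UniversalEnvelopingAlgebra k S) (∑ n ∈ T, monomial n (p.coeff n)) =
        ∑ n ∈ T, AA k (UniversalEnvelopingAlgebra k S) (monomial n (p.coeff n)) := by
      intro T
      induction T using Finset.induction_on with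
      | empty => rw [Finset.sum_empty, Finset.sum_empty, AA, Polynomial.map_zero, map_zero]
      | insert a T ha ih => rw [Finset.sum_insert ha, Finset.sum_insert ha, AA_add, ih]
    conv_lhs => rw [p.as_sum_range' N hp]
    rw [hA, Finset.sum_mul]
    refine Finset.sum_congr rfl fun n _ => ?_
    rw [AA_monomial, mul_smul_comm, ← smul_mul_assoc, sm_single,
      Algebra.algebraMap_eq_smul_one]
  -- the relation, mapped by `Theta`
  have hrel : CI M (AA k (UniversalEnvelopingAlgebra k S) q - ∑ p, AA k (UniversalEnvelopingAlgebra k S) (x p) * Theta D S hS (s (κ p) * iotaU S (t p))) := by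
    have he : AA k (UniversalEnvelopingAlgebra k S) q - ∑ p, AA k (UniversalEnvelopingAlgebra k S) (x p) * Theta D S hS (s (κ p) * iotaU S (t p)) =
        ∑ n ∈ Finset.range N, HahnSeries.single (-(n : ℤ)) 1 *
          Theta D S hS (q.coeff n • (1 : UniversalEnvelopingAlgebra k L) -
            ∑ p, (x p).coeff n • (s (κ p) * iotaU S (t p))) := by
      have e1 := hsum q hNq 1
      rw [mul_one] at e1
      rw [e1, Finset.sum_congr rfl fun p _ => hsum (x p) (hNx p) _, Finset.sum_comm,
        ← Finset.sum_sub_distrib]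
      refine Finset.sum_congr rfl fun n _ => ?_
      rw [← Finset.mul_sum, ← mul_sub, map_sub, map_smul, map_one (Theta D S hS), map_sum]
      simp only [map_smul]
    rw [he]
    refine CI.sum _ _ fun n _ => CI.mul_left ?_ _
    intro m
    exact hQM _ ((mem_PQ D S hS Q _).mp (h1 n) m)
  -- the sum has coefficients in `M`
  have hS2 : CI M (∑ p, AA k (UniversalEnvelopingAlgebra k S) (x p) * Theta D S hS (s (κ p) * iotaU S (t p))) := by
    have he : ∀ p, AA k (UniversalEnvelopingAlgebra k S) (x p) * Theta D S hS (s (κ p) * iotaU S (t p)) =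
        Theta D S hS (s (κ p)) *
          cmap k (UniversalEnvelopingAlgebra k S) ((x p).map (algebraMap k (UniversalEnvelopingAlgebra k S)) * Psi D S hS (t p)) := by
      intro p
      rw [map_mul, ← mul_assoc, AA_comm, mul_assoc, map_mul, cmap_Psi]
      rfl
    have hg : ∑ p, AA k (UniversalEnvelopingAlgebra k S) (x p) * Theta D S hS (s (κ p) * iotaU S (t p)) =
        ∑ a ∈ Finset.univ.image κ, Theta D S hS (s a) *
          cmap k (UniversalEnvelopingAlgebra k S) (∑ p, if κ p = a then (x p).map (algebraMap k (UniversalEnvelopingAlgebra k S)) * Psi D S hS (t p)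
            else 0) := by
      rw [← Finset.sum_fiberwise_of_maps_to (s := Finset.univ) (t := Finset.univ.image κ)
        (g := κ) (fun p _ => Finset.mem_image_of_mem κ (Finset.mem_univ p))]
      refine Finset.sum_congr rfl fun a _ => ?_
      rw [map_sum, Finset.mul_sum, Finset.sum_filter]
      refine Finset.sum_congr rfl fun p _ => ?_
      split_ifs with h
      · rw [he p, h]
      · rw [map_zero, mul_zero]
    rw [hg]
    refine CI.sum _ _ fun a _ => CI.mul_left (CI_cmap ?_) _
    intro n
    have h3 := h2 a n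
    rw [Polynomial.finsetSum_coeff]
    convert h3 using 2 with p
    split_ifs with h
    · rw [Polynomial.coeff_mul]
      refine Finset.sum_congr rfl fun jl _ => ?_
      rw [Polynomial.coeff_map, Algebra.smul_def]
    · rw [Polynomial.coeff_zero]
  have hfin := hrel.add hS2
  rw [sub_add_cancel] at hfin
  exact one_mem_of_CI_AA hq hfin

end PRI65
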