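import Pool.Agent.PRI65.Max
import Pool.Agent.PRI65.Contra
import Pool.Agent.PRI64.Wd
import Pool.Agent.PRI98.Gen
import Pool.Agent.PRI98.Pig
import Pool.Agent.LA53.Rel

set_option autoImplicit false

/-!
Primes of `U(W)` above primitive ideals of `U(W_{≥ -1})` are primitive (uncountable fields).
-/

namespace PRI65

open Pool.WittPrimes Polynomial

attribute [local instance 100] LieRing.ofAssociativeRing

variable {k L : Type*} [Field k] [CharZero k] [LieRing L] [LieAlgebra k L]
variable (D : WittData k L) (S : LieSubalgebra k L)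
    (hS : S.toSubmodule = Submodule.span k (D.b '' {n | -1 ≤ n}))

/-- `th c ⁻¹ M` as a subspace -/
noncomputable def Nc (M : Ideal (UniversalEnvelopingAlgebra k S)) (c : k) :
    Submodule k (UniversalEnvelopingAlgebra k S) :=
  (M.restrictScalars k).comap (th D S hS c).toLinearMap

include D hS in
theorem prim_of_restrict [Uncountable k] (P : TwoSidedIdeal (UniversalEnvelopingAlgebra k L))
    (hP : IsPrimeI P) (M : Ideal (UniversalEnvelopingAlgebra k S)) (hM : M.IsMaximal)
    (hr : ∀ a, iotaU S a ∈ P ↔ ∀ x, a * x ∈ M) :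
    ∃ N : Ideal (UniversalEnvelopingAlgebra k L), N.IsMaximal ∧
      ∀ a, a ∈ P ↔ ∀ x, a * x ∈ N := by
  classical
  by_contra hcon
  set Q := P.comap (iotaU S) with hQd
  have hQ : ∀ a, a ∈ Q ↔ ∀ x, a * x ∈ M := fun a => by
    rw [hQd, TwoSidedIdeal.mem_comap]; exact hr a
  have hQM : ∀ a ∈ Q, a ∈ M := fun a ha => by
    have := (hQ a).mp ha 1
    rwa [mul_one] at this
  have hall : ∀ c : k, (1 : UniversalEnvelopingAlgebra k L) ∈
      Ideal.span ((iotaU S '' ((Nc D S hS M c : Submodule k _) :
        Set (UniversalEnvelopingAlgebra k S))) ∪ {p | p ∈ P}) := by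
    intro c
    by_contra h
    exact hcon (max_step D S hS M hM Q hQ P hP hQd.symm c h)
  have hex := fun c => PRI98.gen_form (iotaU S)
    (PRI64.wrd fun n => UniversalEnvelopingAlgebra.ι k (D.b n)) (PRI64.wrd (eS D S hS))
    (PRI64.wrd_L D) (PRI64.wrd_S D S hS) P (Nc D S hS M c) (hall c)
  choose z hz1 hz2 using hex
  obtain ⟨s, hs⟩ := PRI98.pigeon (fun c => (z c).support)
  obtain ⟨q, hq, x, hx1, hx2⟩ := LA53.rel (I := List ℤ) (ι := {y // y ∈ s}) (tsiSub P)
    (M.restrictScalars k) (fun p => p.1.1) 1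
    (fun p => PRI64.wrd (fun n => UniversalEnvelopingAlgebra.ι k (D.b n)) p.1.1 *
      iotaU S (PRI64.wrd (eS D S hS) p.1.2))
    (fun p => Psi D S hS (PRI64.wrd (eS D S hS) p.1.2)) _ hs (by
      intro c hc
      refine ⟨fun p => z c p.1, ?_, ?_⟩
      · have h1 := hz1 c
        rw [Finsupp.sum, show (z c).support = s from hc, ← Finset.sum_coe_sort] at h1
        exact h1
      · intro a
        have h1 : th D S hS c ((z c).sum fun p r =>
          if p.1 = a then r • PRI64.wrd (eS D S hS) p.2 else 0) ∈ M := hz2 c a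
        rw [Finsupp.sum, show (z c).support = s from hc, ← Finset.sum_coe_sort, map_sum] at h1
        change (∑ p : {y // y ∈ s}, if p.1.1 = a then z c p.1 •
          ((Psi D S hS (PRI64.wrd (eS D S hS) p.1.2)).sum fun j v => c ^ j • v) else 0) ∈ M
        convert h1 using 2 with p
        split_ifs with h
        · rw [map_smul, th_eq]
        · rw [map_zero])
  have hQp : IsPrimeI Q := prime_restrict D S hS P hP
  have hPQ : P = PQ D S hS Q := by
    refine prime_inj D S hS P _ hP (PQ_spec D S hS Q hQp).1 ?_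
    ext w
    rw [TwoSidedIdeal.mem_comap (I := PQ D S hS Q), (PQ_spec D S hS Q hQp).2]
  have h1 : (1 : UniversalEnvelopingAlgebra k S) ∈ M :=
    theta_contra D S hS Q M hQM (I := List ℤ) (ι := {y // y ∈ s}) (fun p => p.1.1)
      (PRI64.wrd fun n => UniversalEnvelopingAlgebra.ι k (D.b n))
      (fun p => PRI64.wrd (eS D S hS) p.1.2) q hq x (fun n => by
        rw [← hPQ]; exact hx1 n) hx2
  exact hM.ne_top ((Ideal.eq_top_iff_one M).mpr h1)

end PRI65
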