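import Pool.Agent.PRI65.Th
import Pool.Agent.WittPrimes.Main

set_option autoImplicit false

/-!
The maximal left ideal step.
-/

namespace PRI65

open Pool.WittPrimes

attribute [local instance 100] LieRing.ofAssociativeRing

/-- the annihilator of the left module `A / N` -/
noncomputable def annI {A : Type*} [Ring A] (N : Ideal A) : TwoSidedIdeal A :=
  TwoSidedIdeal.mk' {a | ∀ x, a * x ∈ N}
    (fun x => by rw [zero_mul]; exact N.zero_mem)
    (fun {a b} ha hb x => by rw [add_mul]; exact N.add_mem (ha x) (hb x))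
    (fun {a} ha x => by rw [neg_mul]; exact N.neg_mem (ha x))
    (fun {y a} ha x => by rw [mul_assoc]; exact N.mul_mem_left _ (ha x))
    (fun {a y} ha x => by rw [mul_assoc]; exact ha _)

theorem mem_annI {A : Type*} [Ring A] (N : Ideal A) (a : A) : a ∈ annI N ↔ ∀ x, a * x ∈ N := by
  rw [annI, TwoSidedIdeal.mem_mk']
  rfl

theorem annI_prime {A : Type*} [Ring A] (N : Ideal A) (hN : N.IsMaximal) :
    IsPrimeI (annI N) := by
  refine ⟨?_, ?_⟩
  · intro htop
    have h1 : (1 : A) ∈ annI N := by rw [htop]; trivial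
    have h2 := (mem_annI N 1).mp h1 1
    rw [one_mul] at h2
    exact hN.ne_top ((Ideal.eq_top_iff_one N).mpr h2)
  · intro a b hab
    by_contra hcon
    push Not at hcon
    obtain ⟨ha, hb⟩ := hcon
    apply ha
    rw [mem_annI] at hb ⊢
    push Not at hb
    obtain ⟨x, hx⟩ := hb
    have htop : N ⊔ Ideal.span {b * x} = ⊤ := by
      refine hN.out.2 _ (lt_of_le_of_ne le_sup_left fun he => hx ?_)
      rw [he]
      exact (le_sup_right : Ideal.span {b * x} ≤ N ⊔ Ideal.span {b * x})
        (Ideal.subset_span (Set.mem_singleton _))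
    have h1 : (1 : A) ∈ N ⊔ Ideal.span {b * x} := by rw [htop]; trivial
    obtain ⟨n, hn, z, hz, hnz⟩ := Submodule.mem_sup.mp h1
    obtain ⟨u, hu⟩ := Ideal.mem_span_singleton'.mp hz
    intro y
    have h2 : a * y = a * y * n + (a * (y * u) * b) * x := by
      calc a * y = a * y * (n + z) := by rw [hnz, mul_one]
        _ = a * y * n + (a * (y * u) * b) * x := by
          rw [mul_add, ← hu]
          simp only [mul_assoc]
    rw [h2]
    exact N.add_mem (N.mul_mem_left _ hn) ((mem_annI N _).mp (hab (y * u)) x)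

variable {k L : Type*} [Field k] [CharZero k] [LieRing L] [LieAlgebra k L]
variable (D : WittData k L) (S : LieSubalgebra k L)
    (hS : S.toSubmodule = Submodule.span k (D.b '' {n | -1 ≤ n}))

theorem max_step (M : Ideal (UniversalEnvelopingAlgebra k S)) (hM : M.IsMaximal)
    (Q : TwoSidedIdeal (UniversalEnvelopingAlgebra k S)) (hQ : ∀ a, a ∈ Q ↔ ∀ x, a * x ∈ M)
    (P : TwoSidedIdeal (UniversalEnvelopingAlgebra k L)) (hP : IsPrimeI P)
    (hr : P.comap (iotaU S) = Q) (c : k)
    (h : (1 : UniversalEnvelopingAlgebra k L) ∉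
      Ideal.span ((iotaU S '' {w | th D S hS c w ∈ M}) ∪ {p | p ∈ P})) :
    ∃ N : Ideal (UniversalEnvelopingAlgebra k L), N.IsMaximal ∧
      ∀ a, a ∈ P ↔ ∀ x, a * x ∈ N := by
  obtain ⟨N, hN, hle⟩ := Ideal.exists_le_maximal _ (fun he => h ((Ideal.eq_top_iff_one _).mp he))
  refine ⟨N, hN, ?_⟩
  have hle1 : ∀ w, th D S hS c w ∈ M → iotaU S w ∈ N := fun w hw =>
    hle (Ideal.subset_span (Or.inl ⟨w, hw, rfl⟩))
  have hle2 : ∀ p ∈ P, p ∈ N := fun p hp => hle (Ideal.subset_span (Or.inr hp))
  -- the maximal left ideal `th c ⁻¹ M`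
  have hsurj : Function.Surjective (th D S hS c) := fun w =>
    ⟨th D S hS (-c) w, by simpa only [neg_neg] using th_neg D S hS (-c) w⟩
  have hmax : (Ideal.comap (th D S hS c) M).IsMaximal :=
    Ideal.comap_isMaximal_of_surjective (th D S hS c) hsurj
  have hcN : Ideal.comap (th D S hS c) M = Ideal.comap (iotaU S) N := by
    refine hmax.eq_of_le ?_ ?_
    · intro he
      have h1 := (Ideal.eq_top_iff_one _).mp he
      rw [Ideal.mem_comap, map_one] at h1
      exact hN.ne_top ((Ideal.eq_top_iff_one N).mpr h1)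
    · intro w hw
      exact hle1 w hw
  have hPN : P ≤ annI N := fun p hp => (mem_annI N p).mpr fun x =>
    hle2 _ (P.mul_mem_right _ _ hp)
  have hNP : annI N ≤ P := by
    refine (main D S hS).2.2 _ _ (annI_prime N hN) hP ?_
    rw [hr]
    intro w hw
    rw [hQ]
    intro x
    have h1 : w * x ∈ (annI N).comap (iotaU S) := TwoSidedIdeal.mul_mem_right _ _ _ hw
    have h2 := th_mem D S hS _ (-c) _ h1
    rw [TwoSidedIdeal.mem_comap, mem_annI] at h2
    have h3 := h2 1
    rw [mul_one] at h3
    have h4 : th D S hS (-c) (w * x) ∈ Ideal.comap (th D S hS c) M := by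
      rw [hcN]; exact h3
    have h5 : th D S hS c (th D S hS (-c) (w * x)) = w * x := by
      simpa only [neg_neg] using th_neg D S hS (-c) (w * x)
    rw [Ideal.mem_comap, h5] at h4
    exact h4
  intro a
  rw [← mem_annI]
  exact ⟨fun ha => hPN ha, fun ha => hNP ha⟩

end PRI65
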