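import Pool.Agent.PRI65.Soc

set_option autoImplicit false

/-!
Propagation modulo a maximal left ideal.
-/

namespace PRI65

open Pool.WittPrimes Finset MulOpposite

variable {k : Type*} [Field k] {d : ℕ}
variable {U : Type*} [Ring U] [Algebra k U] (W : WittFam k U)

theorem propagation_left (N : Ideal U) (hN : N.IsMaximal) {M : ℕ}
    (hO : OO W (annI N) (d + 1) M) (hd : ∀ M', ¬ OO W (annI N) d M')
    {ι : Type*} (s : Finset ι) (x w : ι → U) (κ : ι → ℤ) (n₀ : ℤ)
    (h : ∀ n, n₀ ≤ n → ∑ i ∈ s, x i * W.e (n + κ i) * w i ∈ N) (n : ℤ) :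
    ∑ i ∈ s, x i * W.e (n + κ i) * w i ∈ N := by
  have smul_N : ∀ (c : k) (x : U), x ∈ N → c • x ∈ N := fun c x hx => by
    rw [Algebra.smul_def]; exact N.mul_mem_left _ hx
  let R : AddSubgroup Uᵐᵒᵖ :=
    { carrier := {x | x.unop ∈ N}
      zero_mem' := N.zero_mem
      add_mem' := fun hx hy => N.add_mem hx hy
      neg_mem' := fun hx => N.neg_mem hx }
  have hR : ∀ x ∈ R, ∀ u, x * u ∈ R := fun x hx u => N.mul_mem_left u.unop hx
  have hPR : ∀ x ∈ (annI N).op, x ∈ R := fun x hx => by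
    have h1 := (mem_annI N _).mp (TwoSidedIdeal.mem_op_iff.mp hx) 1
    rw [mul_one] at h1
    exact h1
  have hbr : ∀ (g : A k d) (z : Uᵐᵒᵖ), z * br (PRI98.opFam W).e g ∈ R ↔
      br W.e (sub (Fin.revPerm : Equiv.Perm (Fin d)) g) * z.unop ∈ N := by
    intro g z
    rw [PRI98.br_op]
    change (z * ((-1 : k) ^ d • op (br W.e (sub Fin.revPerm g)))).unop ∈ N ↔ _
    rw [mul_smul_comm, unop_smul, unop_mul, unop_op]
    constructor
    · intro h1
      have h2 := smul_N ((-1 : k) ^ d) _ h1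
      rwa [smul_smul, PRI98.neg_one_sq, one_smul] at h2
    · intro h1
      exact smul_N _ _ h1
  have hann : ∀ (L : ℕ) (z : Uᵐᵒᵖ),
      (∀ g : A k d, z * br (PRI98.opFam W).e (Dd d ^ L * g) ∈ R) → z ∈ R := by
    intro L z hz
    refine ann_left W N hN hd L z.unop fun g => ?_
    have h1 := (hbr _ z).mp (hz (sub (Fin.revPerm : Equiv.Perm (Fin d)) g))
    rwa [map_mul, map_pow, sub_Dd, PRI98.sub_rev_rev] at h1
  have hsum : ∀ n : ℤ, (∑ i ∈ s, op (w i) * (PRI98.opFam W).e (n + κ i) * (-op (x i))) =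
      op (∑ i ∈ s, x i * W.e (n + κ i) * w i) := by
    intro n
    rw [Finset.op_sum]
    refine Finset.sum_congr rfl fun i _ => ?_
    change op (w i) * (-(op (W.e (n + κ i)))) * (-op (x i)) = _
    rw [mul_neg, mul_neg, neg_mul, neg_neg, ← op_mul, ← op_mul, mul_assoc]
  have h1 := propagationR (PRI98.opFam W) (annI N).op R hR hPR (PRI98.OO_op W hO) hann s
    (fun i => op (w i)) (fun i => -op (x i)) κ n₀ (fun n hn => by
      rw [hsum]
      exact h n hn) n
  rw [hsum] at h1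
  exact h1

/-- `f e_n ∈ N` for `n ≥ n₀` gives `f e_n ∈ N` for all `n` -/
theorem local_extend (N : Ideal U) (hN : N.IsMaximal) {M : ℕ}
    (hO : OO W (annI N) (d + 1) M) (hd : ∀ M', ¬ OO W (annI N) d M')
    (f : Polynomial k) (n₀ : ℤ) (h : ∀ n : ℤ, n₀ ≤ n → (f.sum fun i a => a • W.e (n + i)) ∈ N)
    (n : ℤ) : (f.sum fun i a => a • W.e (n + i)) ∈ N := by
  have hf : ∀ n : ℤ, (f.sum fun i a => a • W.e (n + i)) =
      ∑ i ∈ f.support, (algebraMap k U (f.coeff i)) * W.e (n + i) * 1 := fun n => by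
    rw [Polynomial.sum_def]
    refine Finset.sum_congr rfl fun i _ => ?_
    rw [mul_one, Algebra.smul_def]
  rw [hf]
  exact propagation_left W N hN hO hd f.support (fun i => algebraMap k U (f.coeff i)) (fun _ => 1)
    (fun i => (i : ℤ)) n₀ (fun m hm => by rw [← hf]; exact h m hm) n

end PRI65
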