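import Pool.Agent.PRI65.Max
import Pool.Agent.PRI98.RedL

set_option autoImplicit false

/-!
Simple submodules over the positive part.
-/

namespace PRI65

open Pool.WittPrimes Finset

section right

variable {k : Type*} [Field k] {d : ℕ}
variable {U : Type*} [Ring U] [Algebra k U] (W : WittFam k U)

/-- propagation modulo a right ideal -/
theorem propagationR (P : TwoSidedIdeal U) (R : AddSubgroup U) (hR : ∀ x ∈ R, ∀ u, x * u ∈ R)
    (hPR : ∀ x ∈ P, x ∈ R) {M : ℕ} (hO : OO W P (d + 1) M)
    (hann : ∀ (L : ℕ) (z : U), (∀ g : A k d, z * br W.e (Dd d ^ L * g) ∈ R) → z ∈ R)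
    {ι : Type*} (s : Finset ι) (x w : ι → U) (κ : ι → ℤ) (n₀ : ℤ)
    (h : ∀ n, n₀ ≤ n → ∑ i ∈ s, x i * W.e (n + κ i) * w i ∈ R) (n : ℤ) :
    ∑ i ∈ s, x i * W.e (n + κ i) * w i ∈ R := by
  classical
  choose r hr using fun i : ι => shift_lemma W P hO (w i)
  set L := s.sup r with hL
  have hr' : ∀ i ∈ s, r i ≤ L := fun i hi => Finset.le_sup hi
  have key : ∀ m : ℕ, ∀ n : ℤ, n₀ - m ≤ n → ∑ i ∈ s, x i * W.e (n + κ i) * w i ∈ R := by
    intro m
    induction m with
    | zero => intro n hn; exact h n (by simpa using hn)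
    | succ m ih =>
      intro n hn
      rcases le_or_gt (n₀ - m) n with h1 | h1
      · exact ih n h1
      refine hann L _ fun g => ?_
      have h2 : ∀ i ∈ s, ∑ l ∈ Finset.range ((Pz k d L).natDegree + 1),
          x i * (W.e (n + κ i + l) * w i * br W.e ((Pz k d L).coeff l * (Dd d ^ L *
            (mono (fun _ => -((2 * L : ℕ) : ℤ)) * g)))) ∈ P := by
        intro i hi
        rw [← Finset.mul_sum]
        exact P.mul_mem_left _ _ (hr i L (hr' i hi) (n + κ i) _)
      have h3 := hPR _ (sum_mem h2)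
      rw [Finset.sum_comm, Finset.sum_range_succ'] at h3
      have h4 : ∑ l ∈ Finset.range (Pz k d L).natDegree, ∑ i ∈ s,
          x i * (W.e (n + κ i + (l + 1 : ℕ)) * w i * br W.e ((Pz k d L).coeff (l + 1) * (Dd d ^ L *
            (mono (fun _ => -((2 * L : ℕ) : ℤ)) * g)))) ∈ R := by
        refine sum_mem fun l _ => ?_
        have h5 := ih (n + (l + 1 : ℕ)) (by push_cast; push_cast at hn; omega)
        have h6 := hR _ h5 (br W.e ((Pz k d L).coeff (l + 1) * (Dd d ^ L *
            (mono (fun _ => -((2 * L : ℕ) : ℤ)) * g))))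
        rw [Finset.sum_mul] at h6
        convert h6 using 1
        refine Finset.sum_congr rfl fun i _ => ?_
        rw [add_right_comm n]
        noncomm_ring
      have h7 := R.sub_mem h3 h4
      rw [add_sub_cancel_left] at h7
      convert h7 using 1
      rw [Finset.sum_mul]
      refine Finset.sum_congr rfl fun i _ => ?_
      have h8 : ((Pz k d L).coeff 0 * (Dd d ^ L * (mono (fun _ => -((2 * L : ℕ) : ℤ)) * g)) : A k d)
          = Dd d ^ L * g := by
        rw [Pz_coeff_zero]
        linear_combination (Dd d ^ L * g) * E_mul_inv (k := k) (p := d) (2 * L)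
      rw [h8, Nat.cast_zero, add_zero]
      noncomm_ring
  exact key (n₀ - n).toNat n (by omega)

/-- from polynomials to Laurent polynomials, modulo a right ideal -/
theorem extend_polyR (P : TwoSidedIdeal U) (R : AddSubgroup U) (hR : ∀ x ∈ R, ∀ u, x * u ∈ R)
    (hPR : ∀ x ∈ P, x ∈ R) {M : ℕ} (hO : OO W P (d + 1) M)
    (hann : ∀ (L : ℕ) (z : U), (∀ g : A k d, z * br W.e (Dd d ^ L * g) ∈ R) → z ∈ R)
    (v : U) (N : ℕ)
    (h : ∀ g ∈ Pol k d, v * br W.e (E d ^ N * Dd d ^ N * g) ∈ R) : v ∈ R := by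
  classical
  refine hann N v ?_
  -- first for monomials
  have key : ∀ (s : Finset (Fin d)) (n : Fin d → ℤ), (∀ i, i ∉ s → (N : ℤ) ≤ n i) →
      v * br W.e (Dd d ^ N * mono n : A k d) ∈ R := by
    intro s
    induction s using Finset.induction_on with
    | empty =>
      intro n hn
      have := h (mono (n - fun _ => (N : ℤ))) (mono_mem_Pol (fun i => by
        have := hn i (by simp)
        simpa using this))
      convert this using 3
      have e1 : (E d ^ N : A k d) = mono (fun _ => (N : ℤ)) := by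
        rw [E, mono, mono, AddMonoidAlgebra.single_pow, one_pow]
        congr 1
        ext i
        simp
      rw [e1, mul_comm (mono _) (Dd d ^ N), mul_assoc, mono_mul, add_sub_cancel]
    | insert i s hi ih =>
      intro n hn
      -- expand `D^N`
      obtain ⟨c, hc⟩ : ∃ c : (Fin d → ℤ) →₀ k, (Dd d ^ N : A k d)
          = ∑ m ∈ c.support, c m • mono m := by
        have := span_mono (k := k) (p := d)
        have hmem : (Dd d ^ N : A k d) ∈ Submodule.span k (Set.range (fun n => (mono n : A k d))) := by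
          rw [this]; trivial
        rw [Finsupp.mem_span_range_iff_exists_finsupp] at hmem
        obtain ⟨c, hc⟩ := hmem
        exact ⟨c, hc.symm⟩
      choose x y hxy using fun m : Fin d → ℤ => split_one W.e (m + n) i
      have hY : ∀ t : ℤ, v * br W.e (Dd d ^ N * mono (Function.update n i t) : A k d)
          = ∑ m ∈ c.support, (v * (c m • x m)) * W.e (t + m i) * y m := by
        intro t
        rw [hc, Finset.sum_mul, map_sum, Finset.mul_sum]
        refine Finset.sum_congr rfl fun m _ => ?_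
        rw [smul_mul_assoc, map_smul, mono_mul, br_mono, hxy m (m + Function.update n i t)]
        · simp only [Pi.add_apply, Function.update_self, mul_smul_comm, smul_mul_assoc, mul_assoc]
          rw [add_comm (m i) t]
        · intro j hj
          simp [Function.update_of_ne hj]
      have := propagationR W P R hR hPR hO hann c.support (fun m => v * (c m • x m)) y
        (fun m => m i) N
        (fun t ht => by
          rw [← hY]
          refine ih _ (fun j hj => ?_)
          by_cases hji : j = i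
          · subst hji; simpa using ht
          · rw [Function.update_of_ne hji]
            exact hn j (by simp [hji, hj])) (n i)
      rw [← hY, Function.update_eq_self] at this
      exact this
  intro g
  induction g using A_induction with
  | h0 => rw [mul_zero, map_zero, mul_zero]; exact R.zero_mem
  | hadd f g hf hg => rw [mul_add, map_add, mul_add]; exact R.add_mem hf hg
  | hmono c n =>
    rw [mul_smul_comm, map_smul, mul_smul_comm]
    have := hR _ (key univ n (fun i hi => absurd (mem_univ i) hi)) (algebraMap k U c)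
    rwa [← Algebra.commutes, ← Algebra.smul_def] at this

end right

section left

open MulOpposite

variable {k : Type*} [Field k] {d : ℕ}
variable {U : Type*} [Ring U] [Algebra k U] (W : WittFam k U)

/-- annihilator lemma for a maximal left ideal -/
theorem ann_left (N : Ideal U) (hN : N.IsMaximal) (hd : ∀ M', ¬ OO W (annI N) d M') (K : ℕ)
    (z : U) (h : ∀ g : A k d, br W.e (Dd d ^ K * g) * z ∈ N) : z ∈ N := by
  by_contra hz
  have smul_N : ∀ (c : k) (x : U), x ∈ N → c • x ∈ N := fun c x hx => by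
    rw [Algebra.smul_def]; exact N.mul_mem_left _ hx
  have key : ∀ u : U, ∀ g : A k d, br W.e (Dd d ^ K * g) * (u * z) ∈ N := by
    intro u
    refine word_induction W (P := fun u => ∀ g : A k d, br W.e (Dd d ^ K * g) * (u * z) ∈ N)
      ?_ ?_ ?_ ?_ u
    · intro g; rw [one_mul]; exact h g
    · intro x y hx hy g
      rw [add_mul, mul_add]; exact N.add_mem (hx g) (hy g)
    · intro c x hx g
      rw [smul_mul_assoc, mul_smul_comm]; exact smul_N c _ (hx g)
    · intro m x hx g
      obtain ⟨g', hg'⟩ := Lop_Dd (k := k) (p := d) m K g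
      have h1 := ad_br W m (Dd d ^ K * g)
      have h2 : br W.e (Dd d ^ K * g) * (W.e m * x * z) =
          W.e m * (br W.e (Dd d ^ K * g) * (x * z)) - br W.e (Dd d ^ K * g') * (x * z) := by
        rw [← hg', ← h1]
        noncomm_ring
      rw [h2]
      exact N.sub_mem (N.mul_mem_left _ (hx g)) (hx g')
  have htop : N ⊔ Ideal.span {z} = ⊤ := by
    refine hN.out.2 _ (lt_of_le_of_ne le_sup_left fun he => hz ?_)
    rw [he]
    exact (le_sup_right : Ideal.span {z} ≤ N ⊔ Ideal.span {z})
      (Ideal.subset_span (Set.mem_singleton _))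
  have h1 : (1 : U) ∈ N ⊔ Ideal.span {z} := by rw [htop]; trivial
  obtain ⟨n, hn, t, ht, hnt⟩ := Submodule.mem_sup.mp h1
  obtain ⟨u, hu⟩ := Ideal.mem_span_singleton'.mp ht
  refine hd K fun g => (mem_annI N _).mpr fun y => ?_
  have h2 : br W.e (Dd d ^ K * g) * y =
      br W.e (Dd d ^ K * g) * y * n + br W.e (Dd d ^ K * g) * (y * u * z) := by
    calc br W.e (Dd d ^ K * g) * y = br W.e (Dd d ^ K * g) * y * (n + t) := by rw [hnt, mul_one]
      _ = _ := by rw [mul_add, ← hu]; simp only [mul_assoc]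
  rw [h2]
  exact N.add_mem (N.mul_mem_left _ hn) (key (y * u) g)

/-- no torsion at `t = 0` in a simple module with nonzero annihilator -/
theorem torsion_zero (N : Ideal U) (hN : N.IsMaximal) {M : ℕ} (hO : OO W (annI N) (d + 1) M)
    (hd : ∀ M', ¬ OO W (annI N) d M') (v : U) (K : ℕ)
    (h : ∀ g ∈ Pol k d, br W.e (E d ^ K * Dd d ^ K * g) * v ∈ N) : v ∈ N := by
  have smul_N : ∀ (c : k) (x : U), x ∈ N → c • x ∈ N := fun c x hx => by
    rw [Algebra.smul_def]; exact N.mul_mem_left _ hx
  let R : AddSubgroup Uᵐᵒᵖ :=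
    { carrier := {x | x.unop ∈ N}
      zero_mem' := N.zero_mem
      add_mem' := fun hx hy => N.add_mem hx hy
      neg_mem' := fun hx => N.neg_mem hx }
  have hR : ∀ x ∈ R, ∀ u, x * u ∈ R := fun x hx u => N.mul_mem_left u.unop hx
  have hPR : ∀ x ∈ (annI N).op, x ∈ R := fun x hx => by
    have h1 := (mem_annI N _).mp (TwoSidedIdeal.mem_op_iff.mp hx) 1
    rw [mul_one] at h1
    exact h1
  have hbr : ∀ (g : A k d) (z : Uᵐᵒᵖ), z * br (PRI98.opFam W).e g ∈ R ↔
      br W.e (sub (Fin.revPerm : Equiv.Perm (Fin d)) g) * z.unop ∈ N := by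
    intro g z
    rw [PRI98.br_op]
    change (z * ((-1 : k) ^ d • op (br W.e (sub Fin.revPerm g)))).unop ∈ N ↔ _
    rw [mul_smul_comm, unop_smul, unop_mul, unop_op]
    constructor
    · intro h1
      have h2 := smul_N ((-1 : k) ^ d) _ h1
      rwa [smul_smul, PRI98.neg_one_sq, one_smul] at h2
    · intro h1
      exact smul_N _ _ h1
  have hann : ∀ (L : ℕ) (z : Uᵐᵒᵖ),
      (∀ g : A k d, z * br (PRI98.opFam W).e (Dd d ^ L * g) ∈ R) → z ∈ R := by
    intro L z hz
    refine ann_left W N hN hd L z.unop fun g => ?_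
    have h1 := (hbr _ z).mp (hz (sub (Fin.revPerm : Equiv.Perm (Fin d)) g))
    rwa [map_mul, map_pow, sub_Dd, PRI98.sub_rev_rev] at h1
  have hfin := extend_polyR (PRI98.opFam W) (annI N).op R hR hPR (PRI98.OO_op W hO) hann (op v) K
    (fun g hg => by
      have e : sub (Fin.revPerm : Equiv.Perm (Fin d)) (E d ^ K * Dd d ^ K * g) =
          E d ^ K * Dd d ^ K * sub (Fin.revPerm : Equiv.Perm (Fin d)) g := by
        rw [map_mul, map_mul, map_pow, map_pow, sub_E, sub_Dd]
      rw [hbr, e, unop_op]
      exact h _ (PRI98.sub_rev_mem_Pol hg))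
  exact hfin

end left

attribute [local instance 100] LieRing.ofAssociativeRing

variable {k L : Type*} [Field k] [CharZero k] [LieRing L] [LieAlgebra k L]
variable (D : WittData k L) (S : LieSubalgebra k L)
    (hS : S.toSubmodule = Submodule.span k (D.b '' {n | -1 ≤ n}))

include D hS in
/-- a simple `U(S)`-submodule of a simple `U(W)`-module with nonzero annihilator `P` has the
annihilator `r(P)` -/
theorem soc_prim (N : Ideal (UniversalEnvelopingAlgebra k L)) (hN : N.IsMaximal)
    (h0 : ∃ u ∈ annI N, u ≠ 0) (v : UniversalEnvelopingAlgebra k L) (hv : v ∉ N)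
    (J : Ideal (UniversalEnvelopingAlgebra k S)) (hJ : J.IsMaximal)
    (hJv : ∀ a, a ∈ J ↔ iotaU S a * v ∈ N) :
    ∀ a, a ∈ annI J ↔ iotaU S a ∈ annI N := by
  have hP := annI_prime N hN
  have hQ := annI_prime J hJ
  -- the degree of `P`
  obtain ⟨u0, hu0, hne⟩ := h0
  obtain ⟨d, ⟨M, hO⟩, hd⟩ := exists_min_OO (famU D) (annI N) hP (fact1 (famU D) (annI N) hu0 hne)
  obtain ⟨P', hP', hr'⟩ := exists_prime_over D S hS (annI J) hQ
  have hle : annI N ≤ P' := by
    refine (main D S hS).2.2 _ _ hP hP' ?_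
    intro w hw
    rw [TwoSidedIdeal.mem_comap, hr', mem_annI]
    intro x
    rw [hJv, map_mul, mul_assoc]
    exact (mem_annI N _).mp ((TwoSidedIdeal.mem_comap (f := iotaU S)).mp hw) _
  have hPv : ∀ p ∈ P', p * v ∈ N := by
    intro p hp
    obtain ⟨K, hK⟩ := PRI98.red_left (famU D) hO p
    refine torsion_zero (famU D) N hN hO hd (p * v) K fun g hg => ?_
    obtain ⟨w, hw, hwP⟩ := hK K le_rfl g hg
    obtain ⟨w', rfl⟩ := minus_le_range D S hS hw
    have h1 : iotaU S w' ∈ P' := by
      have h2 := P'.sub_mem (P'.mul_mem_left (br (famU D).e (E d ^ K * Dd d ^ K * g)) _ hp)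
        (hle hwP)
      rwa [sub_sub_cancel] at h2
    have h2 : w' ∈ J := by
      have h3 := (mem_annI J w').mp ((hr' w').mp h1) 1
      rwa [mul_one] at h3
    have h3 := (hJv w').mp h2
    have h4 := (mem_annI N _).mp hwP v
    have h5 := N.add_mem h4 h3
    rw [← add_mul, sub_add_cancel] at h5
    rwa [mul_assoc] at h5
  have hge : P' ≤ annI N := by
    have htop : N ⊔ Ideal.span {v} = ⊤ := by
      refine hN.out.2 _ (lt_of_le_of_ne le_sup_left fun he => hv ?_)
      rw [he]
      exact (le_sup_right : Ideal.span {v} ≤ N ⊔ Ideal.span {v})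
        (Ideal.subset_span (Set.mem_singleton _))
    have h1 : (1 : UniversalEnvelopingAlgebra k L) ∈ N ⊔ Ideal.span {v} := by rw [htop]; trivial
    obtain ⟨n, hn, t, ht, hnt⟩ := Submodule.mem_sup.mp h1
    obtain ⟨u, hu⟩ := Ideal.mem_span_singleton'.mp ht
    intro p hp
    rw [mem_annI]
    intro x
    have h2 : p * x = p * x * n + p * (x * u) * v := by
      calc p * x = p * x * (n + t) := by rw [hnt, mul_one]
        _ = _ := by rw [mul_add, ← hu]; simp only [mul_assoc]
    rw [h2]
    exact N.add_mem (N.mul_mem_left _ hn) (hPv _ (P'.mul_mem_right _ _ hp))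
  intro a
  rw [← hr']
  exact ⟨fun h => hge h, fun h => hle h⟩

include D hS in
/-- the same in terms of maximal left ideals: `X` is the submodule of `U(W) / N` generated by the
class of `v` -/
theorem soc_gen (N : Ideal (UniversalEnvelopingAlgebra k L)) (hN : N.IsMaximal)
    (h0 : ∃ u, u ≠ 0 ∧ ∀ x, u * x ∈ N) (v : UniversalEnvelopingAlgebra k L) (hv : v ∉ N)
    (J : Ideal (UniversalEnvelopingAlgebra k S)) (hJ : J.IsMaximal)
    (hJv : ∀ a, a ∈ J ↔ iotaU S a * v ∈ N) :
    ∀ a, (∀ x, a * x ∈ J) ↔ ∀ y, iotaU S a * y ∈ N := by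
  intro a
  obtain ⟨u, hu, hx⟩ := h0
  rw [← mem_annI, ← mem_annI]
  exact soc_prim D S hS N hN ⟨u, (mem_annI N u).mpr hx, hu⟩ v hv J hJ hJv a

include D hS in
theorem soc_comap (N : Ideal (UniversalEnvelopingAlgebra k L)) (hN : N.IsMaximal)
    (h0 : ∃ u, u ≠ 0 ∧ ∀ x, u * x ∈ N) (hJ : (N.comap (iotaU S)).IsMaximal) :
    ∀ a, (∀ x, a * x ∈ N.comap (iotaU S)) ↔ ∀ y, iotaU S a * y ∈ N :=
  soc_gen D S hS N hN h0 1 (fun h => hN.ne_top ((Ideal.eq_top_iff_one N).mpr h)) _ hJ
    (fun a => by rw [Ideal.mem_comap, mul_one])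

end PRI65
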