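import Pool.Agent.WittPrimes.Theta

set_option autoImplicit false

/-!
The translations `t ↦ t + c` on the enveloping algebra of the positive part of the Witt algebra.
-/

namespace PRI65

open Pool.WittPrimes Polynomial

attribute [local instance 100] LieRing.ofAssociativeRing

variable {k L : Type*} [Field k] [LieRing L] [LieAlgebra k L]
variable (D : WittData k L) (S : LieSubalgebra k L)
    (hS : S.toSubmodule = Submodule.span k (D.b '' {n | -1 ≤ n}))

/-- the translation `t ↦ t + c` -/
noncomputable def th (c : k) :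
    UniversalEnvelopingAlgebra k S →ₐ[k] UniversalEnvelopingAlgebra k S :=
  (Polynomial.eval₂AlgHom (AlgHom.id k _) (algebraMap k _ c)
    (fun a => (Algebra.commutes c a).symm)).comp (Psi D S hS)

theorem th_eq (c : k) (w : UniversalEnvelopingAlgebra k S) :
    th D S hS c w = (Psi D S hS w).sum fun j v => c ^ j • v := by
  rw [th, AlgHom.comp_apply, Polynomial.eval₂AlgHom_apply, Polynomial.eval₂_eq_sum]
  refine Finset.sum_congr rfl fun j _ => ?_
  change (Psi D S hS w).coeff j * algebraMap k _ c ^ j = _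
  rw [← map_pow, ← Algebra.commutes, ← Algebra.smul_def]

theorem th_mem [CharZero k] (Q : TwoSidedIdeal (UniversalEnvelopingAlgebra k S)) (c : k)
    (w : UniversalEnvelopingAlgebra k S) (hw : w ∈ Q) : th D S hS c w ∈ Q := by
  rw [th_eq]
  refine sum_mem_tsi Q _ _ fun j _ => smul_mem_tsi Q _ ?_
  exact Psi_coeff_mem D S hS (tsiSub Q)
    (fun _ hz => Q.sub_mem (Q.mul_mem_left _ _ hz) (Q.mul_mem_right _ _ hz)) j w hw

/-- `X ^ i ↦ e_{i-1}` -/
noncomputable def phi : k[X] →ₗ[k] UniversalEnvelopingAlgebra k S :=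
  Polynomial.lsum fun i => LinearMap.toSpanSingleton k _ (eS D S hS ((i : ℤ) - 1))

theorem phi_monomial (i : ℕ) (a : k) :
    phi D S hS (monomial i a) = a • eS D S hS ((i : ℤ) - 1) := by
  rw [phi, Polynomial.lsum_apply, Polynomial.sum_monomial_index _ _ (by simp)]
  rfl

theorem phi_pow (i : ℕ) : phi D S hS (X ^ i) = eS D S hS ((i : ℤ) - 1) := by
  rw [X_pow_eq_monomial, phi_monomial, one_smul]

theorem th_phi_pow (c : k) (N : ℕ) :
    th D S hS c (phi D S hS (X ^ N)) = phi D S hS ((X + C c) ^ N) := by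
  rw [phi_pow, th, AlgHom.comp_apply, Psi_eS, pol, map_sum, add_pow, map_sum]
  refine Finset.sum_congr rfl fun i _ => ?_
  rw [Polynomial.eval₂AlgHom_apply, Polynomial.eval₂_monomial]
  have h : (X : k[X]) ^ i * C c ^ (N - i) * ((N.choose i : ℕ) : k[X]) =
      monomial i (c ^ (N - i) * (N.choose i : k)) := by
    rw [← C_pow, mul_assoc, ← Polynomial.C_eq_natCast, ← C_mul, mul_comm, C_mul_X_pow_eq_monomial]
  rw [h, phi_monomial, mul_smul]
  change ((N.choose i : k) • eS D S hS ((i : ℤ) - 1)) * algebraMap k _ c ^ (N - i) = _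
  rw [← map_pow, ← Algebra.commutes, ← Algebra.smul_def]

theorem th_phi (c : k) (p : k[X]) :
    th D S hS c (phi D S hS p) = phi D S hS (p.comp (X + C c)) := by
  induction p using Polynomial.induction_on' with
  | add p q hp hq => rw [map_add, map_add, hp, hq, Polynomial.add_comp, map_add]
  | monomial i a =>
    rw [← C_mul_X_pow_eq_monomial, Polynomial.mul_comp, C_comp, Polynomial.pow_comp, X_comp,
      ← smul_eq_C_mul, ← smul_eq_C_mul, map_smul, map_smul, th_phi_pow, map_smul]

theorem th_neg (c : k) (w : UniversalEnvelopingAlgebra k S) :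
    th D S hS (-c) (th D S hS c w) = w := by
  refine eS_induction D S hS
    (AlgHom.equalizer ((th D S hS (-c)).comp (th D S hS c)) (AlgHom.id k _)) ?_ w
  intro n hn
  obtain ⟨N, rfl⟩ := exists_nat_of_le hn
  change th D S hS (-c) (th D S hS c (eS D S hS ((N : ℤ) - 1))) = eS D S hS ((N : ℤ) - 1)
  rw [← phi_pow, th_phi, th_phi, X_pow_comp, Polynomial.pow_comp, add_comp, X_comp, C_comp,
    C_neg, neg_add_cancel_right]

end PRI65
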