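import Pool.Agent.PRI65.Th

set_option autoImplicit false

/-!
Translations and symbols: `t ↦ t + c` acts on products of `e_{n - 1}`, written with the symbols
`X ^ n`, by `X_i ↦ X_i + c`.
-/

namespace PRI65

open Pool.WittPrimes

attribute [local instance 100] LieRing.ofAssociativeRing

variable {k L : Type*} [Field k] [LieRing L] [LieAlgebra k L]
variable (D : WittData k L) (S : LieSubalgebra k L)
    (hS : S.toSubmodule = Submodule.span k (D.b '' {n | -1 ≤ n}))

/-- `X_1 ^ n_1 ... X_d ^ n_d ↦ e_{n_1 - 1} ... e_{n_d - 1}` -/
noncomputable def bq (d : ℕ) : MvPolynomial (Fin d) k →ₗ[k] UniversalEnvelopingAlgebra k S :=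
  (MvPolynomial.basisMonomials (Fin d) k).constr k
    (fun n => (List.ofFn fun i => eS D S hS ((n i : ℤ) - 1)).prod)

theorem bq_monomial {d : ℕ} (n : Fin d →₀ ℕ) :
    bq D S hS d (MvPolynomial.monomial n 1) = (List.ofFn fun i => eS D S hS ((n i : ℤ) - 1)).prod := by
  have h := (MvPolynomial.basisMonomials (Fin d) k).constr_basis k
    (fun n => (List.ofFn fun i => eS D S hS ((n i : ℤ) - 1)).prod) n
  rw [MvPolynomial.coe_basisMonomials] at h
  exact h

/-- `bq` of a product of polynomials in one variable each -/
theorem bq_prod {d : ℕ} (p : Fin d → Polynomial k) :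
    bq D S hS d (∏ i, Polynomial.aeval (MvPolynomial.X i) (p i)) =
      (List.ofFn fun i => phi D S hS (p i)).prod := by
  classical
  let f : MultilinearMap k (fun _ : Fin d => Polynomial k) (UniversalEnvelopingAlgebra k S) :=
    (bq D S hS d).compMultilinearMap
      ((MultilinearMap.mkPiAlgebra k (Fin d) (MvPolynomial (Fin d) k)).compLinearMap
        fun i => (Polynomial.aeval (MvPolynomial.X i : MvPolynomial (Fin d) k)).toLinearMap)
  let g : MultilinearMap k (fun _ : Fin d => Polynomial k) (UniversalEnvelopingAlgebra k S) :=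
    (MultilinearMap.mkPiAlgebraFin k d (UniversalEnvelopingAlgebra k S)).compLinearMap
      fun _ => phi D S hS
  have hfg : f = g := by
    refine Module.Basis.ext_multilinear (fun _ => Polynomial.basisMonomials k) fun v => ?_
    change bq D S hS d (∏ i, Polynomial.aeval (MvPolynomial.X i)
      (Polynomial.basisMonomials k (v i))) =
      (List.ofFn fun i => phi D S hS (Polynomial.basisMonomials k (v i))).prod
    have h1 : ∏ i, Polynomial.aeval (MvPolynomial.X i : MvPolynomial (Fin d) k)
        (Polynomial.basisMonomials k (v i)) =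
        MvPolynomial.monomial (Finsupp.equivFunOnFinite.symm v) 1 := by
      rw [MvPolynomial.monomial_eq, MvPolynomial.C_1, one_mul, Finsupp.prod_fintype _ _ (by simp)]
      refine Finset.prod_congr rfl fun i _ => ?_
      rw [Polynomial.coe_basisMonomials]
      change Polynomial.aeval _ (Polynomial.monomial (v i) 1) = _
      rw [← Polynomial.X_pow_eq_monomial, map_pow, Polynomial.aeval_X]
      rfl
    rw [h1, bq_monomial]
    congr 2
    ext i
    rw [Polynomial.coe_basisMonomials, phi_monomial, one_smul]
    rfl
  exact congrArg (fun m => m p) hfg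

theorem th_bq {d : ℕ} (c : k) (f : MvPolynomial (Fin d) k) :
    th D S hS c (bq D S hS d f) =
      bq D S hS d (MvPolynomial.aeval (fun i => MvPolynomial.X i + MvPolynomial.C c) f) := by
  have hl : (th D S hS c).toLinearMap ∘ₗ bq D S hS d =
      bq D S hS d ∘ₗ (MvPolynomial.aeval
        (fun i : Fin d => (MvPolynomial.X i + MvPolynomial.C c : MvPolynomial (Fin d) k))).toLinearMap := by
    refine (MvPolynomial.basisMonomials (Fin d) k).ext fun n => ?_
    rw [MvPolynomial.coe_basisMonomials]
    change th D S hS c (bq D S hS d (MvPolynomial.monomial n 1)) =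
      bq D S hS d (MvPolynomial.aeval
        (fun i : Fin d => (MvPolynomial.X i + MvPolynomial.C c : MvPolynomial (Fin d) k))
        (MvPolynomial.monomial n (1 : k)))
    have h1 : MvPolynomial.aeval
        (fun i : Fin d => (MvPolynomial.X i + MvPolynomial.C c : MvPolynomial (Fin d) k))
        (MvPolynomial.monomial n (1 : k)) =
        ∏ i, Polynomial.aeval (MvPolynomial.X i : MvPolynomial (Fin d) k)
          ((Polynomial.X + Polynomial.C c) ^ n i) := by
      rw [MvPolynomial.aeval_monomial, map_one, one_mul, Finsupp.prod_fintype _ _ (by simp)]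
      refine Finset.prod_congr rfl fun i _ => ?_
      rw [map_pow, map_add, Polynomial.aeval_X, Polynomial.aeval_C]
      rfl
    rw [h1, bq_prod, bq_monomial, map_list_prod, List.map_ofFn]
    congr 2
    ext i
    change th D S hS c (eS D S hS ((n i : ℤ) - 1)) = _
    rw [← phi_pow, th_phi_pow]
  exact congrArg (fun m => m f) hl

end PRI65
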